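import Pool.Agent.Y516.NW.Stm

set_option autoImplicit false

/-! Project NW: continuous induction, time integrals, relative velocities of clusters. -/

namespace Pool.Agent.Y275.NW

open Set Filter Topology Pool.Agent.Y516.NW

theorem boot : BootStm := by
  intro ι _ g hg h0 h
  by_contra hcon
  push Not at hcon
  obtain ⟨t, ht, α, hα⟩ := hcon
  obtain ⟨Z, hZ⟩ : ∃ Z : Set ℝ, Z = Ici 0 ∩ ⋃ α, {t | g α t ≤ 0} := ⟨_, rfl⟩
  have hcl : IsClosed Z := by
    rw [hZ]
    exact isClosed_Ici.inter (isClosed_iUnion_of_finite fun α =>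
      isClosed_le (hg α) continuous_const)
  have hne : Z.Nonempty := by
    rw [hZ]
    exact ⟨t, ht, mem_iUnion.2 ⟨α, hα⟩⟩
  have hbd : BddBelow Z := by
    rw [hZ]
    exact ⟨0, fun x hx => hx.1⟩
  have hT := hcl.csInf_mem hne hbd
  obtain ⟨T, hTT⟩ : ∃ T, T = sInf Z := ⟨_, rfl⟩
  rw [← hTT] at hT
  have hlow : ∀ s, 0 ≤ s → s < T → ∀ β, 0 < g β s := by
    intro s hs hsT β
    by_contra hc
    have : s ∈ Z := by
      rw [hZ]
      exact ⟨hs, mem_iUnion.2 ⟨β, not_lt.1 hc⟩⟩
    have h1 := csInf_le hbd this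
    rw [← hTT] at h1
    linarith
  have hT2 := hT
  rw [hZ] at hT2
  obtain ⟨hT0, hTα⟩ := hT2
  obtain ⟨β, hβ⟩ := mem_iUnion.1 hTα
  have hT0' : (0 : ℝ) ≤ T := hT0
  have hall : ∀ s, 0 ≤ s → s ≤ T → ∀ γ, 0 ≤ g γ s := by
    intro s hs hsT γ
    rcases hsT.eq_or_lt with rfl | hlt
    · rcases hT0'.eq_or_lt with h1 | h1
      · rw [← h1]
        exact (h0 γ).le
      · have h2 : closure (Ico 0 s) ⊆ {t | 0 ≤ g γ t} :=
          closure_minimal (fun u hu => (hlow u hu.1 hu.2 γ).le)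
            (isClosed_le continuous_const (hg γ))
        rw [closure_Ico h1.ne] at h2
        exact h2 ⟨hs, le_rfl⟩
    · exact (hlow s hs hlt γ).le
  have hfin := h T hT0' hall β
  have : g β T ≤ 0 := hβ
  linarith

theorem loc : LocStm := by
  intro F _ _ Ω S Z ψ φ hΩ hS hZ hψ hpos hφ x0 hx0
  have h1 : ∀ᶠ x in 𝓝 x0, x ∈ Ω := hΩ.mem_nhds hx0
  have h2 : ∀ᶠ x in 𝓝 x0, ‖Z x‖ < ‖Z x0‖ + 1 :=
    ((hZ.continuousAt (hΩ.mem_nhds hx0)).norm).eventually_lt_const (lt_add_one _)
  have h3 : ∀ᶠ x in 𝓝 x0, ψ x0 / 2 < ψ x :=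
    (hψ.continuousAt (hΩ.mem_nhds hx0)).eventually_const_lt (by have := hpos x0 hx0; linarith)
  obtain ⟨ρ, hρ, hball⟩ := Metric.eventually_nhds_iff_ball.1 (h1.and (h2.and h3))
  obtain ⟨L, hL⟩ : ∃ L, L = ‖Z x0‖ + 1 := ⟨_, rfl⟩
  have hLp : 0 < L := by rw [hL]; positivity
  have hψ0 := hpos x0 hx0
  obtain ⟨s1, hs1⟩ : ∃ s1, s1 = ρ / (4 * L) := ⟨_, rfl⟩
  have hs1p : 0 < s1 := by rw [hs1]; positivity
  have hLs : L * s1 < ρ / 2 := by
    rw [hs1]
    have : L * (ρ / (4 * L)) = ρ / 4 := by field_simp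
    rw [this]
    linarith
  refine ⟨Metric.ball x0 (ρ / 2), Metric.isOpen_ball, Metric.mem_ball_self (by positivity), s1,
    hs1p, ψ x0 / 2 * s1, by positivity, ?_⟩
  intro y hy τ hτ0 hτ t ht
  obtain ⟨hyb, hyS⟩ := hy
  obtain ⟨hφ0, hφt⟩ := hφ y hyS
  have hcont : Continuous fun s => φ s y :=
    continuous_iff_continuousAt.2 fun s => (hφt s).2.continuousAt
  have hstay : ∀ s, 0 ≤ s → s ≤ s1 → φ s y ∈ Metric.ball x0 ρ := by
    by_contra hcon
    push Not at hcon
    obtain ⟨s, hs0, hss, hsb⟩ := hcon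
    obtain ⟨A, hA⟩ : ∃ A : Set ℝ, A = Icc 0 s1 ∩ {s | ρ ≤ ‖φ s y - x0‖} := ⟨_, rfl⟩
    have hcl : IsClosed A := by
      rw [hA]
      exact isClosed_Icc.inter (isClosed_le continuous_const
        ((hcont.sub continuous_const).norm))
    have hne : A.Nonempty := by
      rw [hA]
      refine ⟨s, ⟨hs0, hss⟩, ?_⟩
      rw [mem_ball_iff_norm] at hsb
      exact not_lt.1 hsb
    have hbd : BddBelow A := by
      rw [hA]
      exact ⟨0, fun x hx => hx.1.1⟩
    have hT := hcl.csInf_mem hne hbd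
    obtain ⟨T, hTT⟩ : ∃ T, T = sInf A := ⟨_, rfl⟩
    rw [← hTT] at hT
    have hT2 := hT
    rw [hA] at hT2
    obtain ⟨⟨hT0, hTs⟩, hTρ⟩ := hT2
    have hlow : ∀ u ∈ Ico 0 T, ‖Z (φ u y)‖ ≤ L := by
      intro u hu
      have h4 : φ u y ∈ Metric.ball x0 ρ := by
        by_contra hc
        have h5 : u ∈ A := by
          rw [hA]
          refine ⟨⟨hu.1, hu.2.le.trans hTs⟩, ?_⟩
          rw [mem_ball_iff_norm] at hc
          exact not_lt.1 hc
        have h6 := csInf_le hbd h5
        rw [← hTT] at h6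
        linarith [hu.2]
      rw [hL]
      exact (hball _ h4).2.1.le
    have h7 := norm_image_sub_le_of_norm_deriv_le_segment' (f := fun s => φ s y)
      (f' := fun s => Z (φ s y)) (a := 0) (b := T) (C := L)
      (fun x _ => (hφt x).2.hasDerivWithinAt) hlow T ⟨hT0, le_rfl⟩
    simp only [hφ0, sub_zero] at h7
    have h8 : ‖y - x0‖ < ρ / 2 := by
      rw [← mem_ball_iff_norm]
      exact hyb
    have h9 : ρ ≤ ‖φ T y - x0‖ := hTρ
    have h10 : ‖φ T y - x0‖ ≤ ‖φ T y - y‖ + ‖y - x0‖ := by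
      have : φ T y - x0 = (φ T y - y) + (y - x0) := by abel
      rw [this]
      exact norm_add_le _ _
    have h11 : L * T ≤ L * s1 := by gcongr
    linarith
  have hmono : Monotone τ := by
    apply monotone_of_deriv_nonneg (fun s => (hτ s).differentiableAt)
    intro s
    rw [(hτ s).deriv]
    exact (hpos _ (hS (hφt s).1)).le
  have h4 : ψ x0 / 2 * s1 ≤ τ s1 := by
    have h5 := Convex.mul_sub_le_image_sub_of_le_deriv (D := Icc 0 s1) (convex_Icc 0 s1)
      (f := τ) (fun s _ => (hτ s).continuousAt.continuousWithinAt)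
      (fun s _ => (hτ s).differentiableAt.differentiableWithinAt) (C := ψ x0 / 2) (by
        intro s hs
        rw [interior_Icc] at hs
        rw [(hτ s).deriv]
        exact (hball _ (hstay s hs.1.le hs.2.le)).2.2.le) 0 ⟨le_rfl, hs1p.le⟩ s1 ⟨hs1p.le, le_rfl⟩
        hs1p.le
    rw [hτ0] at h5
    linarith
  exact h4.trans (hmono ht)

/-! ### Relative velocities -/

theorem mom_add {n : ℕ} (P Q : Fin n → E3) (k : Fin (n + 1)) :
    mom (P + Q) k = mom P k + mom Q k := by
  unfold mom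
  refine Fin.lastCases ?_ (fun k => ?_) k
  · simp only [Fin.snoc_last, Pi.add_apply, Finset.sum_add_distrib]
    abel
  · simp only [Fin.snoc_castSucc, Pi.add_apply]

theorem mom_smul {n : ℕ} (c : ℝ) (P : Fin n → E3) (k : Fin (n + 1)) :
    mom (c • P) k = c • mom P k := by
  unfold mom
  refine Fin.lastCases ?_ (fun k => ?_) k
  · simp only [Fin.snoc_last, Pi.smul_apply, ← Finset.smul_sum, smul_neg]
  · simp only [Fin.snoc_castSucc, Pi.smul_apply]

theorem mom_of_sum {n : ℕ} (p : Cfg (n + 1)) (h : ∑ k, p k = 0) :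
    mom (fun k : Fin n => p k.castSucc) = p := by
  funext k
  unfold mom
  refine Fin.lastCases ?_ (fun k => ?_) k
  · rw [Fin.snoc_last]
    rw [Fin.sum_univ_castSucc] at h
    exact neg_eq_of_add_eq_zero_right h
  · rw [Fin.snoc_castSucc]

/-- the inverse mass of the cluster of a body -/
noncomputable def iw {N : ℕ} (m : Fin N → ℝ) (a b k : Fin N) : ℝ :=
  if k = a ∨ k = b then (m a + m b)⁻¹ else (m k)⁻¹

theorem iw_pos {N : ℕ} {m : Fin N → ℝ} (hm : ∀ i, 0 < m i) (a b k : Fin N) : 0 < iw m a b k := by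
  unfold iw
  have h1 := hm a
  have h2 := hm b
  have h3 := hm k
  split_ifs <;> positivity

theorem cm_val {N : ℕ} {m : Fin N → ℝ} (hm : ∀ i, 0 < m i) (a b : Fin N) (p : Cfg N)
    (k : Fin N) : cm m a b (fun k => (m k)⁻¹ • p k) k =
      iw m a b k • (if k = a ∨ k = b then p a + p b else p k) := by
  unfold cm iw
  split_ifs with h
  · rw [smul_smul, smul_smul, mul_inv_cancel₀ (hm a).ne', mul_inv_cancel₀ (hm b).ne', one_smul,
      one_smul]
  · rfl

theorem surj : SurjStm := by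
  intro n m hm a b hab i j hij
  obtain ⟨hne, hij1, hij2⟩ := hij
  have hadd : ∀ (P Q : Fin n → E3) (k : Fin (n + 1)),
      cm m a b (fun k => (m k)⁻¹ • mom (P + Q) k) k =
        cm m a b (fun k => (m k)⁻¹ • mom P k) k + cm m a b (fun k => (m k)⁻¹ • mom Q k) k := by
    intro P Q k
    rw [cm_val hm, cm_val hm, cm_val hm, ← smul_add]
    congr 1
    split_ifs
    · rw [mom_add, mom_add]
      abel
    · rw [mom_add]
  have hsmul : ∀ (c : ℝ) (P : Fin n → E3) (k : Fin (n + 1)),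
      cm m a b (fun k => (m k)⁻¹ • mom (c • P) k) k =
        c • cm m a b (fun k => (m k)⁻¹ • mom P k) k := by
    intro c P k
    rw [cm_val hm, cm_val hm, smul_comm c]
    congr 1
    split_ifs
    · rw [mom_smul, mom_smul, smul_add]
    · rw [mom_smul]
  refine ⟨{ toFun := fun P => cm m a b (fun k => (m k)⁻¹ • mom P k) i
              - cm m a b (fun k => (m k)⁻¹ • mom P k) j
            map_add' := ?_
            map_smul' := ?_ }, ?_, fun P => rfl⟩
  · intro P Q
    rw [hadd, hadd]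
    abel
  · intro c P
    rw [hsmul, hsmul, RingHom.id_apply, smul_sub]
  · intro y
    obtain ⟨c, hc⟩ : ∃ c : ℝ, c = (iw m a b i + iw m a b j)⁻¹ := ⟨_, rfl⟩
    obtain ⟨p, hp⟩ : ∃ p : Cfg (n + 1), p = fun k => if k = i then c • y else
      if k = j then -(c • y) else 0 := ⟨_, rfl⟩
    have hpi : p i = c • y := by rw [hp]; simp
    have hpj : p j = -(c • y) := by
      rw [hp]
      simp [hne.symm]
    have hpk : ∀ k, k ≠ i → k ≠ j → p k = 0 := by
      intro k h1 h2
      rw [hp]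
      simp [h1, h2]
    have hsum : ∑ k, p k = 0 := by
      rw [← Finset.sum_subset (Finset.subset_univ {i, j})]
      · rw [Finset.sum_pair hne, hpi, hpj, add_neg_cancel]
      · intro k _ hk
        rw [Finset.mem_insert, Finset.mem_singleton, not_or] at hk
        exact hpk k hk.1 hk.2
    refine ⟨fun k => p k.castSucc, ?_⟩
    change cm m a b (fun k => (m k)⁻¹ • mom (fun k : Fin n => p k.castSucc) k) i -
      cm m a b (fun k => (m k)⁻¹ • mom (fun k : Fin n => p k.castSucc) k) j = y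
    rw [mom_of_sum p hsum, cm_val hm, cm_val hm]
    have hi : (if i = a ∨ i = b then p a + p b else p i) = c • y := by
      split_ifs with h
      · rcases h with h | h
        · have h1 : b ≠ j := fun h2 => hij1 ⟨h, h2.symm⟩
          have h3 : b ≠ i := fun h2 => hab (h.symm.trans h2.symm)
          rw [hpk b h3 h1, ← h, hpi, add_zero]
        · have h1 : a ≠ j := fun h2 => hij2 ⟨h, h2.symm⟩
          have h3 : a ≠ i := fun h2 => hab (h2.trans h)
          rw [hpk a h3 h1, ← h, hpi, zero_add]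
      · exact hpi
    have hj : (if j = a ∨ j = b then p a + p b else p j) = -(c • y) := by
      split_ifs with h
      · rcases h with h | h
        · have h1 : b ≠ i := fun h2 => hij2 ⟨h2.symm, h⟩
          have h3 : b ≠ j := fun h2 => hab (h.symm.trans h2.symm)
          rw [hpk b h1 h3, ← h, hpj, add_zero]
        · have h1 : a ≠ i := fun h2 => hij1 ⟨h2.symm, h⟩
          have h3 : a ≠ j := fun h2 => hab (h2.trans h)
          rw [hpk a h1 h3, ← h, hpj, zero_add]
      · exact hpj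
    rw [hi, hj, smul_neg, sub_neg_eq_add, ← add_smul, smul_smul, hc, mul_inv_cancel₀, one_smul]
    have h1 := iw_pos hm a b i
    have h2 := iw_pos hm a b j
    linarith

end Pool.Agent.Y275.NW
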